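import Mathlib
import Pool.Agent.Helper137.Ex
import Pool.Agent.Helper137.IC

set_option autoImplicit false

namespace Pool.Agent.Results.MP_a0e17f_co.NThree

open Module

/-- `S` is `k`-independent: every subset with at most `k + 1` points is affinely independent. -/
def KIndependent {d : ℕ} (k : ℕ) (S : Finset (EuclideanSpace ℝ (Fin d))) : Prop :=
  ∀ T : Finset (EuclideanSpace ℝ (Fin d)), T ⊆ S → T.card ≤ k + 1 →
    AffineIndependent ℝ (fun x : T => (x : EuclideanSpace ℝ (Fin d)))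

/-- `S` is `(2,k)`-divisible: it splits into two disjoint parts whose convex hulls meet in a
(nonempty) set whose affine hull has dimension at least `k`. -/
def TwoDivisible {d : ℕ} (k : ℕ) (S : Finset (EuclideanSpace ℝ (Fin d))) : Prop :=
  ∃ A B : Finset (EuclideanSpace ℝ (Fin d)), A ∪ B = S ∧ Disjoint A B ∧
    (convexHull ℝ (A : Set (EuclideanSpace ℝ (Fin d))) ∩
      convexHull ℝ (B : Set (EuclideanSpace ℝ (Fin d)))).Nonempty ∧
    k ≤ finrank ℝ (vectorSpan ℝ (convexHull ℝ (A : Set (EuclideanSpace ℝ (Fin d))) ∩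
      convexHull ℝ (B : Set (EuclideanSpace ℝ (Fin d)))))

/-- The set of all `n` such that every `k`-independent set of at least `n` points in `ℝ^d` is
`(2,k)`-divisible. -/
def Good (k d : ℕ) : Set ℕ :=
  {n | ∀ S : Finset (EuclideanSpace ℝ (Fin d)), KIndependent k S → n ≤ S.card → TwoDivisible k S}

/-- `N(k,d)` is the least member of `Good k d`. -/
noncomputable def N (k d : ℕ) : ℕ := sInf (Good k d)

lemma kind_iff {d k : ℕ} (S : Finset (EuclideanSpace ℝ (Fin d))) :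
    KIndependent k S ↔ Pool.Agent.Helper137.Rec.KIndep k S := by
  unfold KIndependent Pool.Agent.Helper137.Rec.KIndep
  exact Iff.rfl

lemma div_iff {d k : ℕ} (S : Finset (EuclideanSpace ℝ (Fin d))) :
    TwoDivisible k S ↔ Pool.Agent.Helper137.Dep.Div2 k S := by
  classical
  unfold TwoDivisible Pool.Agent.Helper137.Dep.Div2
  constructor
  · rintro ⟨A, B, h1, h2⟩
    refine ⟨A, B, ?_, h2⟩
    rw [← h1]
  · rintro ⟨A, B, h1, h2⟩
    refine ⟨A, B, ?_, h2⟩
    rw [← h1]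

theorem good_upper (k d : ℕ) (hk : 2 ≤ k) (hkd : k + 1 ≤ d) : 2 * d + 1 ∈ Good k d := by
  classical
  intro S hS hc
  rw [div_iff]
  rw [kind_iff] at hS
  exact Pool.Agent.Helper137.IB.upperD d k hk hkd (by rw [finrank_euclideanSpace_fin]) S hS hc

theorem good_upper3 (d : ℕ) (hd : 5 ≤ d) : 2 * d ∈ Good 3 d := by
  classical
  intro S hS hc
  rw [div_iff]
  rw [kind_iff] at hS
  exact Pool.Agent.Helper137.IC.upper3 d hd (by rw [finrank_euclideanSpace_fin]) S hS hc

theorem good_lower (k d n : ℕ) (hk : 2 ≤ k) (hkd : k + 1 ≤ d) (hn : n ∈ Good k d) :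
    2 * d + 3 - k ≤ n ∧ d + k + 2 ≤ n := by
  classical
  constructor
  · by_contra hlt
    have hS := Pool.Agent.Helper137.Ex.P1_indep k d hk (by omega)
    have hD := Pool.Agent.Helper137.Ex.P1_not_div k d hk (by omega)
    have hcard : ((Pool.Agent.Helper137.Ex.I1 k d).image
        (Pool.Agent.Helper137.Ex.P1 k d)).card = 2 * d + 2 - k := by
      rw [Finset.card_image_of_injOn (Pool.Agent.Helper137.Ex.P1_inj k d hk (by omega))]
      exact Pool.Agent.Helper137.Ex.card_I1 k d (by omega)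
    exact hD ((div_iff _).mp (hn _ ((kind_iff _).mpr hS) (by omega)))
  · by_contra hlt
    have hS := Pool.Agent.Helper137.Ex.P2_indep d (d + k + 1) (by omega)
    have hcard : ((Finset.range (d + k + 1)).image
        (Pool.Agent.Helper137.Ex.P2 d)).card = d + k + 1 := by
      rw [Finset.card_image_of_injOn (Pool.Agent.Helper137.Ex.P2_inj d (d + k + 1) (by omega)),
        Finset.card_range]
    have hD := Pool.Agent.Helper137.Ex.gp_not_div d k (by omega) _ hS hcard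
    refine hD ((div_iff _).mp (hn _ ((kind_iff _).mpr ?_) (by omega)))
    intro T hT hc
    exact hS T hT (by omega)

/-- For `2 ≤ k ≤ d - 1` the threshold `N(k,d)` satisfies
`max (2d+3-k) (d+k+2) ≤ N(k,d) ≤ 2d+1 < (d-k+2)(k+1)`; moreover `N(k,k+1) = 2k+3` for all
`k ≥ 2`, `N(2,d) = 2d+1` for all `d ≥ 3`, `N(3,4) = 9` and `N(3,d) = 2d` for all `d ≥ 5`. -/
theorem result :
    (∀ k d : ℕ, 2 ≤ k → k + 1 ≤ d →
      IsLeast (Good k d) (N k d) ∧
      2 * d + 3 - k ≤ N k d ∧ d + k + 2 ≤ N k d ∧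
      N k d ≤ 2 * d + 1 ∧
      N k d < (d - k + 2) * (k + 1)) ∧
    (∀ k : ℕ, 2 ≤ k → N k (k + 1) = 2 * k + 3) ∧
    (∀ d : ℕ, 3 ≤ d → N 2 d = 2 * d + 1) ∧
    N 3 4 = 9 ∧ (∀ d : ℕ, 5 ≤ d → N 3 d = 2 * d) := by
  have main : ∀ k d : ℕ, 2 ≤ k → k + 1 ≤ d →
      IsLeast (Good k d) (N k d) ∧
      2 * d + 3 - k ≤ N k d ∧ d + k + 2 ≤ N k d ∧
      N k d ≤ 2 * d + 1 ∧
      N k d < (d - k + 2) * (k + 1) := by
    intro k d hk hkd
    have hne : (Good k d).Nonempty := ⟨_, good_upper k d hk hkd⟩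
    have hmem : N k d ∈ Good k d := Nat.sInf_mem hne
    have hlow := good_lower k d _ hk hkd hmem
    have hup : N k d ≤ 2 * d + 1 := Nat.sInf_le (good_upper k d hk hkd)
    refine ⟨⟨hmem, fun n hn => Nat.sInf_le hn⟩, hlow.1, hlow.2, hup, lt_of_le_of_lt hup ?_⟩
    obtain ⟨e, rfl⟩ : ∃ e, d = k + 1 + e := ⟨d - (k + 1), by omega⟩
    obtain ⟨f, rfl⟩ : ∃ f, k = 2 + f := ⟨k - 2, by omega⟩
    have h1 : 2 + f + 1 + e - (2 + f) + 2 = e + 3 := by omega
    rw [h1]
    have h2 : 2 * (2 + f + 1 + e) + 1 = 2 * f + 2 * e + 7 := by omega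
    rw [h2]
    nlinarith [Nat.zero_le (e * f)]
  refine ⟨main, ?_, ?_, ?_, ?_⟩
  · intro k hk
    obtain ⟨_, _, h1, h2, _⟩ := main k (k + 1) hk le_rfl
    omega
  · intro d hd
    obtain ⟨_, h1, _, h2, _⟩ := main 2 d le_rfl (by omega)
    omega
  · obtain ⟨_, _, h1, h2, _⟩ := main 3 4 (by omega) (by omega)
    omega
  · intro d hd
    obtain ⟨_, h1, _, _, _⟩ := main 3 d (by omega) (by omega)
    have h2 : N 3 d ≤ 2 * d := Nat.sInf_le (good_upper3 d hd)
    omega

end Pool.Agent.Results.MP_a0e17f_co.NThree
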